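import Mathlib

set_option autoImplicit false

open scoped LinearAlgebra.Projectivization

namespace Pool.Agent.Results.MP_7ec995_an.HartogsCounterexample

/-- The complex projective space `P^N`, i.e. the space of lines of the Hermitian space
`ℂ^(N+1)`. -/
abbrev CP (N : ℕ) : Type := ℙ ℂ (EuclideanSpace ℂ (Fin (N + 1)))

/-- The Fubini-Study distance of `P^N` (the distance induced by the Fubini-Study Kaehler
metric): `d([v],[w]) = arccos (|⟨v,w⟩| / (|v| |w|))`. The value does not depend on the choice of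
the representatives. -/
noncomputable def fsDist {N : ℕ} (p q : CP N) : ℝ :=
  Real.arccos (‖(inner ℂ p.rep q.rep : ℂ)‖ / (‖p.rep‖ * ‖q.rep‖))

/-- `f` is a holomorphic map from the open set `U` of `ℂ^n × ℂ` to `P^N`: near each point of `U`
it is of the form `z ↦ [F z]` with `F` a holomorphic map without zeros to `ℂ^(N+1)`. -/
def HolomorphicOn {n N : ℕ} (f : (Fin n → ℂ) × ℂ → CP N) (U : Set ((Fin n → ℂ) × ℂ)) : Prop :=
  ∀ p ∈ U, ∃ V : Set ((Fin n → ℂ) × ℂ), IsOpen V ∧ p ∈ V ∧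
    ∃ F : (Fin n → ℂ) × ℂ → EuclideanSpace ℂ (Fin (N + 1)), DifferentiableOn ℂ F V ∧
      ∀ z ∈ V, ∃ h : F z ≠ 0, f z = Projectivization.mk ℂ (F z) h

/-- The family `𝓕` is equicontinuous on `U` for the Fubini-Study distance: for every `p ∈ U` and
`ε > 0` there is `δ > 0` with `d(f z, f p) < ε` for all `f ∈ 𝓕` and `z ∈ U` with `|z - p| < δ`. -/
def EquicontOn {n N : ℕ} (𝓕 : Set ((Fin n → ℂ) × ℂ → CP N)) (U : Set ((Fin n → ℂ) × ℂ)) : Prop :=
  ∀ p ∈ U, ∀ ε : ℝ, 0 < ε → ∃ δ : ℝ, 0 < δ ∧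
    ∀ f ∈ 𝓕, ∀ z ∈ U, dist z p < δ → fsDist (f z) (f p) < ε

/-- The unit polydisk `Δ^(n+1)` of `ℂ^n × ℂ`. -/
def polydisk (n : ℕ) : Set ((Fin n → ℂ) × ℂ) :=
  {z | (∀ i, ‖z.1 i‖ < 1) ∧ ‖z.2‖ < 1}

/-- The Hartogs figure
`H_n^1(r) = [Δ^n(1-r) × Δ^1] ∪ [Δ^n × A^1(r,1)]`. -/
def hartogs (n : ℕ) (r : ℝ) : Set ((Fin n → ℂ) × ℂ) :=
  {z | (∀ i, ‖z.1 i‖ < 1 - r) ∧ ‖z.2‖ < 1} ∪ {z | (∀ i, ‖z.1 i‖ < 1) ∧ r < ‖z.2‖ ∧ ‖z.2‖ < 1}

/-! ### Auxiliary lemmas -/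

theorem fsDist_mk {N : ℕ} (v w : EuclideanSpace ℂ (Fin (N + 1))) (hv : v ≠ 0) (hw : w ≠ 0) :
    fsDist (Projectivization.mk ℂ v hv) (Projectivization.mk ℂ w hw) =
      Real.arccos (‖(inner ℂ v w : ℂ)‖ / (‖v‖ * ‖w‖)) := by
  obtain ⟨a, ha⟩ := Projectivization.exists_smul_eq_mk_rep ℂ v hv
  obtain ⟨b, hb⟩ := Projectivization.exists_smul_eq_mk_rep ℂ w hw
  unfold fsDist
  rw [← ha, ← hb]
  have ha0 : ‖(a : ℂ)‖ ≠ 0 := norm_ne_zero_iff.2 a.ne_zero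
  have hb0 : ‖(b : ℂ)‖ ≠ 0 := norm_ne_zero_iff.2 b.ne_zero
  have hv0 : ‖v‖ ≠ 0 := norm_ne_zero_iff.2 hv
  have hw0 : ‖w‖ ≠ 0 := norm_ne_zero_iff.2 hw
  congr 1
  rw [Units.smul_def, Units.smul_def, inner_smul_left, inner_smul_right, norm_mul, norm_mul,
    norm_smul, norm_smul, RCLike.norm_conj]
  field_simp

theorem fsDist_mk_le {N : ℕ} (v w : EuclideanSpace ℂ (Fin (N + 1))) (hv : v ≠ 0) (hw : w ≠ 0) :
    fsDist (Projectivization.mk ℂ v hv) (Projectivization.mk ℂ w hw) ≤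
      Real.pi / 2 * (‖v - w‖ / ‖w‖) := by
  rw [fsDist_mk]
  have hv0 : 0 < ‖v‖ := norm_pos_iff.2 hv
  have hw0 : 0 < ‖w‖ := norm_pos_iff.2 hw
  obtain ⟨t, ht⟩ : ∃ t : ℝ, t = ‖(inner ℂ v w : ℂ)‖ / (‖v‖ * ‖w‖) := ⟨_, rfl⟩
  rw [← ht]
  have ht0 : 0 ≤ t := by rw [ht]; positivity
  have hx0 : 0 ≤ Real.arccos t := Real.arccos_nonneg t
  have hx1 : Real.arccos t ≤ Real.pi / 2 := Real.arccos_le_pi_div_two.2 ht0
  have h1 := Real.mul_le_sin hx0 hx1
  rw [Real.sin_arccos] at h1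
  have h2 : √(1 - t ^ 2) ≤ ‖v - w‖ / ‖w‖ := by
    apply Real.sqrt_le_iff.2
    refine ⟨by positivity, ?_⟩
    have hsub : ‖v - w‖ ^ 2 = ‖v‖ ^ 2 - 2 * (inner ℂ v w : ℂ).re + ‖w‖ ^ 2 := by
      have := @norm_sub_sq ℂ _ _ _ _ v w
      simpa using this
    have hre : |(inner ℂ v w : ℂ).re| ≤ ‖(inner ℂ v w : ℂ)‖ := Complex.abs_re_le_norm _
    have hle := abs_le.1 hre
    have ht2 : t ^ 2 = ‖(inner ℂ v w : ℂ)‖ ^ 2 / (‖v‖ ^ 2 * ‖w‖ ^ 2) := by
      rw [ht, div_pow, mul_pow]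
    rw [ht2, div_pow, hsub, sub_le_iff_le_add, div_add_div _ _ (by positivity) (by positivity),
      le_div_iff₀ (by positivity)]
    have hsq : (inner ℂ v w : ℂ).re ^ 2 ≤ ‖(inner ℂ v w : ℂ)‖ ^ 2 := sq_le_sq' hle.1 hle.2
    have key : 0 ≤ (‖v‖ ^ 2 - (inner ℂ v w : ℂ).re) ^ 2 := sq_nonneg _
    have hw2 : 0 ≤ ‖w‖ ^ 2 := by positivity
    nlinarith [mul_nonneg hw2 key, mul_nonneg hw2 (sub_nonneg.2 hsq)]
  have hpi : 0 < Real.pi := Real.pi_pos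
  have h3 : Real.arccos t = Real.pi / 2 * (2 / Real.pi * Real.arccos t) := by
    field_simp
  rw [h3]
  apply mul_le_mul_of_nonneg_left (h1.trans h2) (by positivity)

/-- The lift `(z, w) ↦ (z_1 - c, w, 1/(k+1), 0, …, 0)`. -/
noncomputable def lift {n N : ℕ} (hN : 2 ≤ N) (i₀ : Fin n) (c : ℝ) (k : ℕ)
    (z : (Fin n → ℂ) × ℂ) : EuclideanSpace ℂ (Fin (N + 1)) :=
  (z.1 i₀ - (c : ℂ)) • EuclideanSpace.single ⟨0, by omega⟩ (1 : ℂ) +
    z.2 • EuclideanSpace.single ⟨1, by omega⟩ (1 : ℂ) +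
    ((1 : ℂ) / ((k : ℂ) + 1)) • EuclideanSpace.single ⟨2, by omega⟩ (1 : ℂ)

theorem lift_zero {n N : ℕ} (hN : 2 ≤ N) (i₀ : Fin n) (c : ℝ) (k : ℕ) (z : (Fin n → ℂ) × ℂ) :
    lift hN i₀ c k z ⟨0, by omega⟩ = z.1 i₀ - (c : ℂ) := by
  simp [lift]

theorem lift_one {n N : ℕ} (hN : 2 ≤ N) (i₀ : Fin n) (c : ℝ) (k : ℕ) (z : (Fin n → ℂ) × ℂ) :
    lift hN i₀ c k z ⟨1, by omega⟩ = z.2 := by
  simp [lift]

theorem lift_two {n N : ℕ} (hN : 2 ≤ N) (i₀ : Fin n) (c : ℝ) (k : ℕ) (z : (Fin n → ℂ) × ℂ) :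
    lift hN i₀ c k z ⟨2, by omega⟩ = (1 : ℂ) / ((k : ℂ) + 1) := by
  simp [lift]

theorem lift_ne_zero {n N : ℕ} (hN : 2 ≤ N) (i₀ : Fin n) (c : ℝ) (k : ℕ) (z : (Fin n → ℂ) × ℂ) :
    lift hN i₀ c k z ≠ 0 := by
  intro h
  have h2 := lift_two hN i₀ c k z
  rw [h] at h2
  have h3 : ((k : ℂ) + 1) ≠ 0 := by exact_mod_cast Nat.succ_ne_zero k
  simp at h2
  exact h3 h2.symm

theorem lift_differentiable {n N : ℕ} (hN : 2 ≤ N) (i₀ : Fin n) (c : ℝ) (k : ℕ) :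
    Differentiable ℂ (lift (n := n) hN i₀ c k) := by
  unfold lift
  fun_prop

theorem lift_sub {n N : ℕ} (hN : 2 ≤ N) (i₀ : Fin n) (c : ℝ) (k : ℕ) (z p : (Fin n → ℂ) × ℂ) :
    ‖lift hN i₀ c k z - lift hN i₀ c k p‖ ≤ 2 * dist z p := by
  have h : lift hN i₀ c k z - lift hN i₀ c k p =
      (z.1 i₀ - p.1 i₀) • EuclideanSpace.single (⟨0, by omega⟩ : Fin (N + 1)) (1 : ℂ) +
      (z.2 - p.2) • EuclideanSpace.single (⟨1, by omega⟩ : Fin (N + 1)) (1 : ℂ) := by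
    unfold lift
    module
  rw [h]
  refine (norm_add_le _ _).trans ?_
  rw [norm_smul, norm_smul, PiLp.norm_single, PiLp.norm_single, norm_one,
    mul_one, mul_one, dist_eq_norm]
  have h1 : ‖z.1 i₀ - p.1 i₀‖ ≤ ‖z - p‖ := (norm_le_pi_norm (z.1 - p.1) i₀).trans (norm_fst_le (z - p))
  have h2 : ‖z.2 - p.2‖ ≤ ‖z - p‖ := norm_snd_le (z - p)
  linarith

theorem lift_norm_ge {n N : ℕ} (hN : 2 ≤ N) (i₀ : Fin n) (c : ℝ) (k : ℕ) (z : (Fin n → ℂ) × ℂ)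
    (r : ℝ) (h : r ≤ ‖z.1 i₀ - (c : ℂ)‖ ∨ r ≤ ‖z.2‖) : r ≤ ‖lift hN i₀ c k z‖ := by
  rcases h with h | h
  · rw [← lift_zero hN i₀ c k z] at h
    exact h.trans (PiLp.norm_apply_le _ _)
  · rw [← lift_one hN i₀ c k z] at h
    exact h.trans (PiLp.norm_apply_le _ _)

/-- The maps `f_k = [z_1 - c : w : 1/(k+1) : 0 : … : 0]`. -/
noncomputable def fmap {n N : ℕ} (hN : 2 ≤ N) (i₀ : Fin n) (c : ℝ) (k : ℕ)
    (z : (Fin n → ℂ) × ℂ) : CP N :=
  Projectivization.mk ℂ (lift hN i₀ c k z) (lift_ne_zero hN i₀ c k z)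

/-- **Negative answer to the question.** For all `n ≥ 1`, `0 < r < 1` and every `N ≥ 2` there is a
family of holomorphic maps from the polydisk `Δ^(n+1)` to the projective space `P^N` which is
equicontinuous on the Hartogs figure `H_n^1(r)` but not on `Δ^(n+1)`. -/
theorem result (n N : ℕ) (hn : 1 ≤ n) (hN : 2 ≤ N) (r : ℝ) (hr0 : 0 < r) (hr1 : r < 1) :
    ∃ 𝓕 : Set ((Fin n → ℂ) × ℂ → CP N),
      (∀ f ∈ 𝓕, HolomorphicOn f (polydisk n)) ∧
      EquicontOn 𝓕 (hartogs n r) ∧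
      ¬ EquicontOn 𝓕 (polydisk n) := by
  obtain ⟨i₀⟩ : Nonempty (Fin n) := ⟨⟨0, by omega⟩⟩
  obtain ⟨c, hc⟩ : ∃ c : ℝ, c = 1 - r / 2 := ⟨_, rfl⟩
  have hc0 : 0 ≤ c := by rw [hc]; linarith
  refine ⟨Set.range (fmap hN i₀ c), ?_, ?_, ?_⟩
  · rintro f ⟨k, rfl⟩ p _
    exact ⟨Set.univ, isOpen_univ, Set.mem_univ _, lift hN i₀ c k,
      (lift_differentiable hN i₀ c k).differentiableOn, fun z _ =>
        ⟨lift_ne_zero hN i₀ c k z, rfl⟩⟩
  · intro p hp ε hε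
    refine ⟨r * ε / (2 * Real.pi), by positivity, ?_⟩
    rintro f ⟨k, rfl⟩ z hz hzp
    have hlow : r / 2 ≤ ‖lift hN i₀ c k p‖ := by
      apply lift_norm_ge
      rcases hp with hp | hp
      · left
        have h1 := hp.1 i₀
        have h2 : ‖(c : ℂ)‖ = c := by
          rw [Complex.norm_real, Real.norm_eq_abs, abs_of_nonneg hc0]
        have h3 : ‖(c : ℂ)‖ ≤ ‖p.1 i₀ - (c : ℂ)‖ + ‖p.1 i₀‖ := by
          have := norm_sub_norm_le (c : ℂ) (p.1 i₀)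
          rw [norm_sub_rev] at this
          linarith
        rw [h2] at h3
        linarith
      · right
        linarith [hp.2.1]
    have h1 : fsDist (fmap hN i₀ c k z) (fmap hN i₀ c k p) ≤
        Real.pi / 2 * (‖lift hN i₀ c k z - lift hN i₀ c k p‖ / ‖lift hN i₀ c k p‖) :=
      fsDist_mk_le _ _ _ _
    have h2 : ‖lift hN i₀ c k z - lift hN i₀ c k p‖ / ‖lift hN i₀ c k p‖ ≤
        (2 * dist z p) / (r / 2) := by
      apply div_le_div₀ (by positivity) (lift_sub hN i₀ c k z p) (by positivity) hlow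
    have hpi := Real.pi_pos
    calc fsDist (fmap hN i₀ c k z) (fmap hN i₀ c k p)
        ≤ Real.pi / 2 * ((2 * dist z p) / (r / 2)) :=
          h1.trans (mul_le_mul_of_nonneg_left h2 (by positivity))
      _ < Real.pi / 2 * ((2 * (r * ε / (2 * Real.pi))) / (r / 2)) := by
          apply mul_lt_mul_of_pos_left _ (by positivity)
          apply div_lt_div_of_pos_right _ (by positivity)
          linarith
      _ = ε := by field_simp
  · intro hE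
    have hp : (Function.update (0 : Fin n → ℂ) i₀ (c : ℂ), (0 : ℂ)) ∈ polydisk n := by
      refine ⟨fun i => ?_, by simp⟩
      by_cases hi : i = i₀
      · subst hi
        simp only [Function.update_self]
        rw [Complex.norm_real, Real.norm_eq_abs, abs_of_nonneg hc0]
        linarith
      · simp [Function.update_of_ne hi]
    obtain ⟨δ, hδ, h⟩ := hE _ hp (Real.arccos (1 / 2)) (Real.arccos_pos.2 (by norm_num))
    obtain ⟨s, hs⟩ : ∃ s : ℝ, s = min δ (r / 2) / 2 := ⟨_, rfl⟩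
    have hmin : 0 < min δ (r / 2) := lt_min hδ (by linarith)
    have hs0 : 0 < s := by rw [hs]; linarith
    have hsδ : s < δ := by
      have := min_le_left δ (r / 2)
      rw [hs]; linarith
    have hsr : s < r / 2 := by
      have := min_le_right δ (r / 2)
      rw [hs]; linarith
    obtain ⟨k, hk⟩ := exists_nat_gt (2 / s)
    have hz : (Function.update (0 : Fin n → ℂ) i₀ ((c : ℂ) + (s : ℂ)), (0 : ℂ)) ∈ polydisk n := by
      refine ⟨fun i => ?_, by simp⟩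
      by_cases hi : i = i₀
      · subst hi
        simp only [Function.update_self]
        rw [← Complex.ofReal_add, Complex.norm_real, Real.norm_eq_abs,
          abs_of_nonneg (by linarith)]
        linarith
      · simp [Function.update_of_ne hi]
    have hdist : dist (Function.update (0 : Fin n → ℂ) i₀ ((c : ℂ) + (s : ℂ)), (0 : ℂ))
        (Function.update (0 : Fin n → ℂ) i₀ (c : ℂ), (0 : ℂ)) < δ := by
      rw [Prod.dist_eq, dist_self]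
      refine max_lt ?_ hδ
      rw [dist_pi_lt_iff hδ]
      intro i
      by_cases hi : i = i₀
      · subst hi
        simp only [Function.update_self]
        rw [dist_eq_norm, add_sub_cancel_left, Complex.norm_real, Real.norm_eq_abs,
          abs_of_pos hs0]
        exact hsδ
      · simp [Function.update_of_ne hi, hδ]
    have hlt := h _ ⟨k, rfl⟩ _ hz hdist
    apply absurd hlt
    rw [not_lt]
    unfold fmap
    rw [fsDist_mk]
    apply Real.arccos_le_arccos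
    set p₀ : (Fin n → ℂ) × ℂ := (Function.update (0 : Fin n → ℂ) i₀ (c : ℂ), (0 : ℂ)) with hp₀
    set z₀ : (Fin n → ℂ) × ℂ :=
      (Function.update (0 : Fin n → ℂ) i₀ ((c : ℂ) + (s : ℂ)), (0 : ℂ)) with hz₀
    have hk1 : (0 : ℝ) < (k : ℝ) + 1 := by positivity
    have hnk : ‖(1 : ℂ) / ((k : ℂ) + 1)‖ = 1 / ((k : ℝ) + 1) := by
      rw [norm_div, norm_one]
      congr 1
      have : ((k : ℂ) + 1) = (((k : ℝ) + 1 : ℝ) : ℂ) := by push_cast; ring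
      rw [this, Complex.norm_real, Real.norm_eq_abs, abs_of_pos hk1]
    have hp1 : lift hN i₀ c k p₀ =
        ((1 : ℂ) / ((k : ℂ) + 1)) • EuclideanSpace.single ⟨2, by omega⟩ (1 : ℂ) := by
      simp [lift, hp₀]
    have hp2 : ‖lift hN i₀ c k p₀‖ = 1 / ((k : ℝ) + 1) := by
      rw [hp1, norm_smul, PiLp.norm_single, norm_one, mul_one, hnk]
    have hz1 : s ≤ ‖lift hN i₀ c k z₀‖ := by
      apply lift_norm_ge
      left
      simp only [hz₀, Function.update_self]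
      rw [add_sub_cancel_left, Complex.norm_real, Real.norm_eq_abs, abs_of_pos hs0]
    have hin : (inner ℂ (lift hN i₀ c k z₀) (lift hN i₀ c k p₀) : ℂ) =
        ((1 : ℂ) / ((k : ℂ) + 1)) * (starRingEnd ℂ) ((1 : ℂ) / ((k : ℂ) + 1)) := by
      rw [hp1, inner_smul_right, EuclideanSpace.inner_single_right, lift_two]
      simp
    have hin2 : ‖(inner ℂ (lift hN i₀ c k z₀) (lift hN i₀ c k p₀) : ℂ)‖ =
        (1 / ((k : ℝ) + 1)) * (1 / ((k : ℝ) + 1)) := by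
      rw [hin, norm_mul, RCLike.norm_conj, hnk]
    rw [hin2, hp2]
    have hz2 : 0 < ‖lift hN i₀ c k z₀‖ := lt_of_lt_of_le hs0 hz1
    rw [div_le_iff₀ (by positivity)]
    have h5 : 1 / ((k : ℝ) + 1) ≤ s / 2 := by
      rw [div_lt_iff₀ hs0] at hk
      rw [div_le_iff₀ hk1]
      nlinarith
    have h6 : 1 / ((k : ℝ) + 1) ≤ 1 / 2 * ‖lift hN i₀ c k z₀‖ := by linarith
    have h7 : 0 ≤ 1 / ((k : ℝ) + 1) := by positivity
    nlinarith [mul_le_mul_of_nonneg_right h6 h7]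

end Pool.Agent.Results.MP_7ec995_an.HartogsCounterexample
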